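import Pool.Agent.helper58.FI4E.Spec

/-!
# Project fi4e (MP_baa4d7_al), block E6: row DFA
-/

set_option autoImplicit false

namespace Pool.Agent.FI4E

open Pool.Agent.helper58.DC Pool.Agent.DI Pool.Agent.GR Pool.Agent.OB Pool.Agent.DR Pool.Agent.FI Pool.Agent.FI3 Pool.Agent.FI4 Pool.Agent.FI4I

theorem DFA (hCON : CON_stmt) (hBAA : BAA_stmt) (hIM : IM_stmt) : DFA_stmt := by
  intro p M hM G _ _ D x θ χ hRt α hSt
  have hB := hBAA G M p α D D (cz D) θ θ χ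
  obtain ⟨⟨bcz, -, -, -, bcard, -, -, bpg, -⟩, -, bIrr, -, -, bInd, -⟩ := hB
  have hBc := hBAA G M p α D D (cz D) θ χ χ
  obtain ⟨-, -, -, -, -, bInd', -⟩ := hBc
  have h1 : funMap α θ ∈ IrrOn (cz (am α D)) := by
    rw [bcz]
    exact bIrr.1 hRt.th
  have h2 : Induces M (funMap α θ) (funMap α χ) := bInd'.2 hRt.ind
  have h3 : Induces M (funMap α θ) χ := (hIM G M (funMap α θ) (funMap α χ) χ).2.2.1 h2 hSt
  obtain ⟨g, hle, -⟩ := hCON p M hM G D x θ χ hRt (am α D) (bpg.2 hRt.dfa.pgrp) (funMap α θ) h1 h3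
  have hle' : cjS g (am α D) ≤ D := hle
  refine ⟨g, ?_⟩
  rw [am_al]
  refine Subgroup.eq_of_le_of_card_ge hle' ?_
  have h4 : Nat.card (cjS g (am α D)) = Nat.card (am α D) := by
    have h5 := hBAA G M p (MulAut.conj g) (am α D) D (cz D) θ θ χ
    exact h5.1.2.2.2.2.1
  rw [h4, bcard]

end Pool.Agent.FI4E
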